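import Pool.Agent.H416.Cls
import Pool.Agent.H416.QL

set_option autoImplicit false

/-!
# The Chern character of `K₀(B[G])`, `G` a group of isometries of spaces of negative type

Let `G` be a torsion-free group. If the finitely generated projective modules over `ℤ[G]` are stably
free, then all cycles `(Ω, δ, T)` in the sense of Connes of even dimension `2 n ≥ 2` over `ℤ[G]`
vanish on the idempotent matrices: `T (e (δ e) ^ (2 n)) = 0`. We prove this if the elements `g ≠ 1` of
`G` satisfy `OnNegType`, with `ℤ` replaced by any field of characteristic zero and without conditions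
on the values of the cycle on the tuples of group elements with product `≠ 1`; and for arbitrary
coefficient rings `B` and all `n ≥ 0` we prove that the value on `e` is the contribution of the tuples
with product `1`.

`OnNegType G g`: every finitely generated subgroup `H` of `G` that contains `g` acts by isometries on a
metric space `X` of negative type (`∑ c_i c_j d(x_i, x_j) ≤ 0` if `∑ c_i = 0`) such that `g` has
positive translation length: `d(x, g ^ n x) ≥ c n` for some `c > 0`. The spaces `L^p`, `1 ≤ p ≤ 2`,
the real trees, the median spaces and the real and complex hyperbolic spaces, also of infinite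
dimension, are of negative type. `OnWalls G g` is the version for spaces with walls (for example
CAT(0) cube complexes of arbitrary dimension): the number of walls which separate `x` and `g ^ n x` is
unbounded; it implies `OnNegType G g`. The actions need not be proper, and nothing is assumed about
the stabilizers.

Let `wordE δ ρ n e` be the matrix over `Ω[G]` whose coefficient at `h` is the sum of the terms of
`e (δ e) ^ (2 n)` with product `h`; `compT T (wordE δ ρ n e) g` is the component at the conjugacy
class of `g` of the value `onI δ T ρ n e = T (e (δ e) ^ (2 n))`.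

Outline of the proof. The element `g` has infinite order in the abelianisation of its centraliser, in the finitely
generated subgroups: the metric is the square of the distance in a Hilbert space, and the means of
`d(g ^ (-n) x, c x) - d(g ^ n x, c x)` over `n` are asymptotically additive in `c`, `c` in the
centraliser, by the ergodic theorem for stationary sequences of vectors. So there is a function `l`
with rational values, additive on the centraliser, `l g = 1`. With a homomorphism `f` from `M` to `ℚ`
it defines a form `P` on `Ω[G]` with the graded identity `P(a, b c) = ± P(c a, b) + P(a b, c)`,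
`P(1, a) = f (T_g(a))` and `P(δa, b) ± P(a, δb) = 0`, and `P(1, e (δe) ^ (2 n)) = 0`. For (3) the
cycle is localised at `1`, as the cycle `Ω[G]` over `K[G]`, and the starting result
`EvenCyclesFiniteQuotients` is used for it.
-/

namespace Pool.Agent.Results.MP_551055_al.NegativeTypeCycles

open Pool.Agent.V11187.DG (Cyc onI value wordE compT suppE)
open Pool.Agent.H416 (OnNegType OnWalls)

universe u v w x y z

/-- For all coefficient rings `B`, all cycles of even dimension over `B[G]` and all idempotent
matrices over `B[G]`, the component of the value at the conjugacy class of `g` is a torsion element. -/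
def Torsion (G : Type w) [Group G] (g : G) : Prop :=
  ∀ (K : Type u) [CommRing K] (B : Type y) [Ring B] (Ω : Type v) [Ring Ω] [Algebra K Ω]
    (𝒜 : ℕ → Submodule K Ω) [GradedAlgebra 𝒜] (M : Type x) [AddCommGroup M] [Module K M]
    (δ : Ω →ₗ[K] Ω) (T : Ω →ₗ[K] M) (n : ℕ), Cyc (2 * n) 𝒜 δ T →
    ∀ ρ : MonoidAlgebra B G →+* Ω, (∀ a, ρ a ∈ 𝒜 0) →
    ∀ (d : ℕ) (e : Matrix (Fin d) (Fin d) (MonoidAlgebra B G)), e * e = e →
      ∃ k : ℤ, k ≠ 0 ∧ k • compT T (wordE δ ρ n e) g = 0

/-- For all coefficient rings `B`, all cycles of even dimension over `B[G]` with values in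
torsion-free groups and all idempotent matrices over `B[G]`, the value is its component at `1`. -/
def OnlyOne (G : Type w) [Group G] : Prop :=
  ∀ (K : Type u) [CommRing K] (B : Type y) [Ring B] (Ω : Type v) [Ring Ω] [Algebra K Ω]
    (𝒜 : ℕ → Submodule K Ω) [GradedAlgebra 𝒜] (M : Type x) [AddCommGroup M] [Module K M]
    (δ : Ω →ₗ[K] Ω) (T : Ω →ₗ[K] M) (n : ℕ), (∀ (k : ℤ) (z : M), k ≠ 0 → k • z = 0 → z = 0) →
    Cyc (2 * n) 𝒜 δ T → ∀ ρ : MonoidAlgebra B G →+* Ω, (∀ a, ρ a ∈ 𝒜 0) →
    ∀ (d : ℕ) (e : Matrix (Fin d) (Fin d) (MonoidAlgebra B G)), e * e = e →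
      onI δ T ρ n e = compT T (wordE δ ρ n e) 1

/-- The values of the cycle on the tuples of elements of `H` with product `1` lie in the module
generated by a finite set over a finitely generated subring of `K`. -/
def FinType {K : Type u} [Field K] {G : Type w} [Group G] {Ω : Type v} [Ring Ω] [Algebra K Ω]
    {M : Type x} [AddCommGroup M] [Module K M] (δ : Ω →ₗ[K] Ω) (T : Ω →ₗ[K] M) (N : ℕ)
    (ρ : MonoidAlgebra K G →ₐ[K] Ω) (H : Subgroup G) : Prop :=
  ∃ (s : Finset K) (F : Finset M), ∀ (a : H) (l : List H),
    l.length = N → a * l.prod = 1 → value δ T ρ a (l.map Subtype.val) ∈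
      Submodule.span (Algebra.adjoin ℤ (s : Set K)) (F : Set M)

/-- All cycles of dimension `2 n ≥ 2` with the property `FinType` vanish on `e`. -/
def Vanish (K : Type u) [Field K] {G : Type w} [Group G] {d : ℕ}
    (e : Matrix (Fin d) (Fin d) (MonoidAlgebra K G)) : Prop :=
  ∀ (Ω : Type v) [Ring Ω] [Algebra K Ω] (𝒜 : ℕ → Submodule K Ω) [GradedAlgebra 𝒜]
    (M : Type x) [AddCommGroup M] [Module K M] (δ : Ω →ₗ[K] Ω) (T : Ω →ₗ[K] M) (n : ℕ), 1 ≤ n →
    Cyc (2 * n) 𝒜 δ T → ∀ ρ : MonoidAlgebra K G →ₐ[K] Ω, (∀ a, ρ a ∈ 𝒜 0) →
    FinType δ T (2 * n) ρ (suppE e) → onI δ T (ρ : MonoidAlgebra K G →+* Ω) n e = 0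

/-- (1) The components at the elements `g` of any group with `OnNegType G g` are torsion elements.
(2) If all elements `g ≠ 1` satisfy `OnNegType` then the values with arbitrary coefficient rings are
the components at `1`, and (3) for the coefficient fields of characteristic zero they vanish in
positive dimensions. (4) `OnWalls` implies `OnNegType`. -/
theorem result :
    (∀ (G : Type w) [Group G] (g : G), OnNegType.{w, z} G g → Torsion.{u, v, w, x, y} G g) ∧
    (∀ (G : Type w) [Group G], (∀ g : G, g ≠ 1 → OnNegType.{w, z} G g) → OnlyOne.{u, v, w, x, y} G) ∧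
    (∀ (G : Type w) [Group G], (∀ g : G, g ≠ 1 → OnNegType.{w, z} G g) →
      ∀ (K : Type u) [Field K] [CharZero K] (d : ℕ)
        (e : Matrix (Fin d) (Fin d) (MonoidAlgebra K G)), e * e = e →
        Vanish.{u, v, w, x} K e) ∧
    (∀ (G : Type w) [Group G] (g : G), OnWalls.{w, z} G g → OnNegType.{w, z} G g) := by
  refine ⟨?_, ?_, ?_, fun G _ g hg => Pool.Agent.H416.Cls.negType_of_walls hg⟩
  · intro G _ g hg K _ B _ Ω _ _ 𝒜 _ M _ _ δ T n hc ρ hρ d e he
    exact Pool.Agent.H416.QG.torsionE_loc (Pool.Agent.H416.Cls.loc_negType hg) hc hρ e he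
  · intro G _ hG K _ B _ Ω _ _ 𝒜 _ M _ _ δ T n hM hc ρ hρ d e he
    exact Pool.Agent.H416.QG.onI_one
      (fun g hg => Pool.Agent.H416.Cls.loc_negType (hG g hg)) hM hc hρ e he
  · intro G _ hG K _ _ d e he Ω _ _ 𝒜 _ M _ _ δ T n hn hc ρ hρ hF
    obtain ⟨s, F, hF⟩ := hF
    exact Pool.Agent.H416.QG.onI_zero
      (fun g hg => Pool.Agent.H416.Cls.loc_negType (hG g hg)) e he 𝒜 δ T n hn hc ρ hρ s F hF

end Pool.Agent.Results.MP_551055_al.NegativeTypeCycles
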